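import Pool.Agent.H.P40.Main
import Pool.Agent.H.P40.Ka
import Pool.Agent.H.P40.Kb
import Pool.Agent.H.P40.Kc
import Pool.Agent.H.P40.Kd
import Pool.Agent.H.P40.Ke
import Pool.Agent.H.P40.Kf
import Pool.Agent.H.P40.Kg
import Pool.Agent.H.P40.Kh
import Pool.Agent.H.P40.Ki

set_option autoImplicit false

namespace Pool.Agent.Results.MP_40bd32_nt.EvenPalPowers

open N4baffcff Pool.Agent.H.P40

theorem exp6 {x : ℕ} (hx : 1 < x) (hpx : IsDecimalPalindrome x) :
    ¬ IsDecimalPalindrome (x ^ 6) := by
  refine main (by norm_num) (fun e h1 h2 => ?_) hx hpx (fuel := 100)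
  exact rangeDead_spec dead6 (by omega) (by omega)

theorem exp10 {x : ℕ} (hx : 1 < x) (hpx : IsDecimalPalindrome x) :
    ¬ IsDecimalPalindrome (x ^ 10) := by
  refine main (by norm_num) (fun e h1 h2 => ?_) hx hpx (fuel := 810)
  rcases Nat.lt_or_ge 3 e with h3 | h3
  swap
  · exact rangeDead_spec dead10a (by omega) (by omega)
  rcases Nat.lt_or_ge 4 e with h3 | h3
  swap
  · exact rangeDead_spec dead10b (by omega) (by omega)
  exact rangeDead_spec dead10c (by omega) (by omega)

theorem exp12 {x : ℕ} (hx : 1 < x) (hpx : IsDecimalPalindrome x) :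
    ¬ IsDecimalPalindrome (x ^ 12) := by
  refine main (by norm_num) (fun e h1 h2 => ?_) hx hpx (fuel := 790)
  exact rangeDead_spec dead12 (by omega) (by omega)

theorem exp14 {x : ℕ} (hx : 1 < x) (hpx : IsDecimalPalindrome x) :
    ¬ IsDecimalPalindrome (x ^ 14) := by
  refine main (by norm_num) (fun e h1 h2 => ?_) hx hpx (fuel := 530)
  exact rangeDead_spec dead14 (by omega) (by omega)

theorem exp22 {x : ℕ} (hx : 1 < x) (hpx : IsDecimalPalindrome x) :
    ¬ IsDecimalPalindrome (x ^ 22) := by
  refine main (by norm_num) (fun e h1 h2 => ?_) hx hpx (fuel := 400)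
  exact rangeDead_spec dead22 (by omega) (by omega)

theorem exp24 {x : ℕ} (hx : 1 < x) (hpx : IsDecimalPalindrome x) :
    ¬ IsDecimalPalindrome (x ^ 24) := by
  refine main (by norm_num) (fun e h1 h2 => ?_) hx hpx (fuel := 3700)
  rcases Nat.lt_or_ge 16 e with h3 | h3
  swap
  · exact rangeDead_spec dead24a (by omega) (by omega)
  rcases Nat.lt_or_ge 17 e with h3 | h3
  swap
  · exact rangeDead_spec dead24b (by omega) (by omega)
  exact rangeDead_spec dead24c (by omega) (by omega)

theorem exp26 {x : ℕ} (hx : 1 < x) (hpx : IsDecimalPalindrome x) :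
    ¬ IsDecimalPalindrome (x ^ 26) := by
  refine main (by norm_num) (fun e h1 h2 => ?_) hx hpx (fuel := 490)
  exact rangeDead_spec dead26 (by omega) (by omega)

theorem exp34 {x : ℕ} (hx : 1 < x) (hpx : IsDecimalPalindrome x) :
    ¬ IsDecimalPalindrome (x ^ 34) := by
  refine main (by norm_num) (fun e h1 h2 => ?_) hx hpx (fuel := 1330)
  rcases Nat.lt_or_ge 12 e with h3 | h3
  swap
  · exact rangeDead_spec dead34a (by omega) (by omega)
  rcases Nat.lt_or_ge 13 e with h3 | h3
  swap
  · exact rangeDead_spec dead34b (by omega) (by omega)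
  rcases Nat.lt_or_ge 24 e with h3 | h3
  swap
  · exact rangeDead_spec dead34c (by omega) (by omega)
  rcases Nat.lt_or_ge 25 e with h3 | h3
  swap
  · exact rangeDead_spec dead34d (by omega) (by omega)
  exact rangeDead_spec dead34e (by omega) (by omega)

theorem exp38 {x : ℕ} (hx : 1 < x) (hpx : IsDecimalPalindrome x) :
    ¬ IsDecimalPalindrome (x ^ 38) := by
  refine main (by norm_num) (fun e h1 h2 => ?_) hx hpx (fuel := 1480)
  rcases Nat.lt_or_ge 27 e with h3 | h3
  swap
  · exact rangeDead_spec dead38a (by omega) (by omega)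
  rcases Nat.lt_or_ge 28 e with h3 | h3
  swap
  · exact rangeDead_spec dead38b (by omega) (by omega)
  rcases Nat.lt_or_ge 29 e with h3 | h3
  swap
  · exact rangeDead_spec dead38c (by omega) (by omega)
  rcases Nat.lt_or_ge 30 e with h3 | h3
  swap
  · exact rangeDead_spec dead38d (by omega) (by omega)
  exact rangeDead_spec dead38e (by omega) (by omega)

/-- For `k` in the list, no `k`-th power of a decimal palindrome `x > 1` is a decimal palindrome. -/
theorem result (k : ℕ) (hk : k ∈ ({6, 10, 12, 14, 22, 24, 26, 34, 38} : Finset ℕ)) (x : ℕ)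
    (hx : 1 < x) (hpx : IsDecimalPalindrome x) : ¬ IsDecimalPalindrome (x ^ k) := by
  simp only [Finset.mem_insert, Finset.mem_singleton] at hk
  rcases hk with h | h | h | h | h | h | h | h | h <;> subst h
  · exact exp6 hx hpx
  · exact exp10 hx hpx
  · exact exp12 hx hpx
  · exact exp14 hx hpx
  · exact exp22 hx hpx
  · exact exp24 hx hpx
  · exact exp26 hx hpx
  · exact exp34 hx hpx
  · exact exp38 hx hpx

end Pool.Agent.Results.MP_40bd32_nt.EvenPalPowers
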