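import Pool.Agent.H.MP_40bd32_nt.helper88.Final

/-! Among any `K` consecutive powers `x^(M+1), …, x^(M+K)` of any integer `x ≥ 2` at most
`C √K` are decimal palindromes, with an absolute constant `C`. -/

namespace Pool.Agent.Results.MP_40bd32_nt.ExponentWindows

open N4baffcff

theorem result :
    ∃ C : ℝ, ∀ x M K : ℕ, 2 ≤ x → 1 ≤ K →
      ({k : ℕ | M < k ∧ k ≤ M + K ∧ IsDecimalPalindrome (x ^ k)}.ncard : ℝ) ≤ C * Real.sqrt K :=
  ⟨10 ^ 7, fun _ M _ hx hK =>
    Pool.Agent.H.MP_40bd32_nt.helper88.exponent_bound M hx hK⟩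

end Pool.Agent.Results.MP_40bd32_nt.ExponentWindows
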