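import Pool.Agent.H.P40.NoCarry

set_option autoImplicit false

namespace Pool.Agent.Results.MP_40bd32_nt.LeastLength

open N4baffcff

/-- If `x > 1` is a decimal palindrome with `n` digits and `k ≥ 5`, and `x ^ k` has the least
possible number `k * (n - 1) + 1` of digits, then `x ^ k` is not a palindrome. -/
theorem result (k x : ℕ) (hk : 5 ≤ k) (hx : 1 < x) (hpx : IsDecimalPalindrome x)
    (hlen : (Nat.digits 10 (x ^ k)).length = k * ((Nat.digits 10 x).length - 1) + 1) :
    ¬ IsDecimalPalindrome (x ^ k) :=
  Pool.Agent.H.P40.no_carry hk hx hpx hlen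

end Pool.Agent.Results.MP_40bd32_nt.LeastLength
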