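import Pool.Agent.H.MP_40bd32_nt.PS.Final

set_option autoImplicit false

namespace Pool.Agent.Results.MP_40bd32_nt.PowerSaving

open N4baffcff

/-- There is an absolute `c > 0` such that for every `K ≥ 2` the number of decimal palindromes in
`[1, N]` that are of the form `x ^ k` with `k ≥ K` is at most `C N ^ ((1 - c) / (2 K))`. -/
theorem result : ∃ c : ℝ, 0 < c ∧ ∀ K : ℕ, 2 ≤ K → ∃ C : ℝ, ∀ N : ℕ, 1 ≤ N →
    (({m : ℕ | 1 ≤ m ∧ m ≤ N ∧ IsDecimalPalindrome m ∧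
        ∃ x k : ℕ, K ≤ k ∧ m = x ^ k} : Set ℕ).ncard : ℝ)
      ≤ C * (N : ℝ) ^ ((1 - c) / (2 * (K : ℝ))) := by
  classical
  obtain ⟨c, hc0, hc⟩ := Pool.Agent.H.MP_40bd32_nt.PS.all_k
  refine ⟨c, hc0, fun K hK => ?_⟩
  obtain ⟨C, hC⟩ := hc K hK
  refine ⟨C, fun N hN => ?_⟩
  have h1 : ({m : ℕ | 1 ≤ m ∧ m ≤ N ∧ IsDecimalPalindrome m ∧
      ∃ x k : ℕ, K ≤ k ∧ m = x ^ k} : Set ℕ)
      = (((Finset.Icc 1 N).filter (fun m => IsDecimalPalindrome m ∧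
          ∃ x k : ℕ, K ≤ k ∧ m = x ^ k) : Finset ℕ) : Set ℕ) := by
    ext m
    simp only [Set.mem_ofPred_eq, Finset.coe_filter, Finset.mem_Icc]
    tauto
  rw [h1, Set.ncard_coe_finset]
  refine le_trans (le_of_eq ?_) (hC N hN)
  congr 2

end Pool.Agent.Results.MP_40bd32_nt.PowerSaving
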